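import Pool.Agent.Lib_helper70.PS.Defs

set_option autoImplicit false

/-!
MP_8191b7_co, module M1b: from disjoint connected finite lattice sets to a planar model
(the complement of the sets is cut into its components).
-/

namespace PS

namespace M1b

/-- reachability inside a set of lattice points -/
def Rch (S : Set (ℤ × ℤ)) (x y : ℤ × ℤ) : Prop :=
  ∃ (hx : x ∈ S) (hy : y ∈ S), (Lat.induce S).Reachable ⟨x, hx⟩ ⟨y, hy⟩

theorem Rch.refl {S : Set (ℤ × ℤ)} {x : ℤ × ℤ} (hx : x ∈ S) : Rch S x x :=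
  ⟨hx, hx, SimpleGraph.Reachable.refl _⟩

theorem Rch.symm {S : Set (ℤ × ℤ)} {x y : ℤ × ℤ} (h : Rch S x y) : Rch S y x := by
  obtain ⟨hx, hy, h⟩ := h
  exact ⟨hy, hx, h.symm⟩

theorem Rch.trans {S : Set (ℤ × ℤ)} {x y z : ℤ × ℤ} (h : Rch S x y) (h' : Rch S y z) :
    Rch S x z := by
  obtain ⟨hx, hy, h⟩ := h
  obtain ⟨_, hz, h'⟩ := h'
  exact ⟨hx, hz, h.trans h'⟩

theorem Rch.step {S : Set (ℤ × ℤ)} {x y : ℤ × ℤ} (hx : x ∈ S) (hy : y ∈ S)
    (h : Lat.Adj x y) : Rch S x y :=
  ⟨hx, hy, SimpleGraph.Adj.reachable (by simpa using h)⟩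

theorem adj_up (a b : ℤ) : Lat.Adj (a, b) (a, b + 1) :=
  ⟨1, by ext <;> simp [dir]⟩

theorem adj_right (a b : ℤ) : Lat.Adj (a, b) (a + 1, b) :=
  ⟨0, by ext <;> simp [dir]⟩

theorem vertical {S : Set (ℤ × ℤ)} {a : ℤ} (h : ∀ b, (a, b) ∈ S) (b c : ℤ) :
    Rch S (a, b) (a, c) := by
  have up : ∀ (n : ℕ) (b : ℤ), Rch S (a, b) (a, b + n) := by
    intro n
    induction n with
    | zero => intro b; simpa using Rch.refl (h b)
    | succ n ih =>
      intro b
      refine (ih b).trans ?_
      have := Rch.step (h (b + n)) (h (b + n + 1)) (adj_up a (b + n))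
      simpa [add_assoc] using this
  rcases le_total b c with hbc | hbc
  · have := up (c - b).toNat b
    rw [Int.toNat_of_nonneg (by linarith)] at this
    simpa using this
  · have := up (b - c).toNat c
    rw [Int.toNat_of_nonneg (by linarith)] at this
    exact Rch.symm (by simpa using this)

theorem horizontal {S : Set (ℤ × ℤ)} {b : ℤ} (h : ∀ a, (a, b) ∈ S) (a c : ℤ) :
    Rch S (a, b) (c, b) := by
  have rt : ∀ (n : ℕ) (a : ℤ), Rch S (a, b) (a + n, b) := by
    intro n
    induction n with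
    | zero => intro a; simpa using Rch.refl (h a)
    | succ n ih =>
      intro a
      refine (ih a).trans ?_
      have := Rch.step (h (a + n)) (h (a + n + 1)) (adj_right (a + n) b)
      simpa [add_assoc] using this
  rcases le_total a c with hac | hac
  · have := rt (c - a).toNat a
    rw [Int.toNat_of_nonneg (by linarith)] at this
    simpa using this
  · have := rt (a - c).toNat c
    rw [Int.toNat_of_nonneg (by linarith)] at this
    exact Rch.symm (by simpa using this)

/-- outside a large box everything is connected to the corner -/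
theorem outside {S : Set (ℤ × ℤ)} (N : ℤ)
    (hS : ∀ a b : ℤ, (N < |a| ∨ N < |b|) → (a, b) ∈ S) (hN : 0 ≤ N) (a b : ℤ)
    (h : N < |a| ∨ N < |b|) : Rch S (a, b) (N + 1, N + 1) := by
  have hN1 : N < |N + 1| := by rw [abs_of_nonneg (by linarith)]; linarith
  rcases h with h | h
  · exact (vertical (fun c => hS a c (Or.inl h)) b (N + 1)).trans
      (horizontal (fun c => hS c (N + 1) (Or.inr hN1)) a (N + 1))
  · exact (horizontal (fun c => hS c b (Or.inr h)) a (N + 1)).trans
      (vertical (fun c => hS (N + 1) c (Or.inl hN1)) b (N + 1))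

theorem bounded_of_finite {U : Set (ℤ × ℤ)} (hU : U.Finite) :
    ∃ N : ℤ, 0 ≤ N ∧ ∀ a b : ℤ, (N < |a| ∨ N < |b|) → (a, b) ∉ U := by
  obtain ⟨N1, h1⟩ := (hU.image (fun p => |p.1|)).bddAbove
  obtain ⟨N2, h2⟩ := (hU.image (fun p => |p.2|)).bddAbove
  refine ⟨max 0 (max N1 N2), le_max_left _ _, ?_⟩
  intro a b h hab
  have e1 : |a| ≤ N1 := h1 ⟨(a, b), hab, rfl⟩
  have e2 : |b| ≤ N2 := h2 ⟨(a, b), hab, rfl⟩
  rcases h with h | h
  · have : N1 ≤ max 0 (max N1 N2) := le_trans (le_max_left _ _) (le_max_right _ _)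
    linarith
  · have : N2 ≤ max 0 (max N1 N2) := le_trans (le_max_right _ _) (le_max_right _ _)
    linarith

theorem box_finite (N : ℤ) : {p : ℤ × ℤ | |p.1| ≤ N ∧ |p.2| ≤ N}.Finite := by
  refine ((Set.finite_Icc (-N) N).prod (Set.finite_Icc (-N) N)).subset ?_
  rintro ⟨a, b⟩ ⟨h1, h2⟩
  exact ⟨abs_le.mp h1, abs_le.mp h2⟩

end M1b

open M1b in
theorem model_of_fibres {V : Type} [Fintype V] [Nonempty V] (G : SimpleGraph V)
    (fib : V → Set (ℤ × ℤ)) (h1 : ∀ v, (fib v).Finite) (h2 : ∀ v, (Lat.induce (fib v)).Connected)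
    (h3 : ∀ u v, u ≠ v → Disjoint (fib u) (fib v))
    (h4 : ∀ u v, u ≠ v → ((∃ a ∈ fib u, ∃ b ∈ fib v, Lat.Adj a b) ↔ G.Adj u v)) :
    ∃ (W : Type) (_ : Fintype W) (π : ℤ × ℤ → W) (o : W) (j : V → W), Model π o ∧
      Function.Injective j ∧ (∀ u v, (Quo π).Adj (j u) (j v) ↔ G.Adj u v) ∧
      (∀ p q, p ∉ Set.range j → q ∉ Set.range j → ¬ (Quo π).Adj p q) := by
  classical
  have hUf : (⋃ v, fib v).Finite := Set.finite_iUnion h1
  obtain ⟨N, hN0, hN⟩ := bounded_of_finite hUf
  have hS : ∀ a b : ℤ, (N < |a| ∨ N < |b|) → (a, b) ∈ (⋃ v, fib v)ᶜ := fun a b h => hN a b h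
  have hcorner : ((N + 1, N + 1) : ℤ × ℤ) ∈ (⋃ v, fib v)ᶜ := by
    apply hS
    left
    rw [abs_of_nonneg (by linarith)]; linarith
  set S : Set (ℤ × ℤ) := (⋃ v, fib v)ᶜ with hSdef
  have hout : ∀ (x : ℤ × ℤ) (hx : x ∈ S), ¬ (|x.1| ≤ N ∧ |x.2| ≤ N) →
      (Lat.induce S).connectedComponentMk ⟨x, hx⟩ =
        (Lat.induce S).connectedComponentMk ⟨_, hcorner⟩ := by
    rintro ⟨a, b⟩ hx hh
    have : N < |a| ∨ N < |b| := by
      by_contra hcon
      push Not at hcon
      exact hh hcon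
    obtain ⟨_, _, h⟩ := outside N hS hN0 a b this
    exact SimpleGraph.ConnectedComponent.sound h
  -- finitely many components
  have hfin : Finite (Lat.induce S).ConnectedComponent := by
    have hbox : Finite {p : S // |p.1.1| ≤ N ∧ |p.1.2| ≤ N} := by
      have := (box_finite N).to_subtype
      refine Finite.of_injective
        (fun p : {p : S // |p.1.1| ≤ N ∧ |p.1.2| ≤ N} =>
          (⟨p.1.1, p.2⟩ : {p : ℤ × ℤ | |p.1| ≤ N ∧ |p.2| ≤ N})) ?_
      intro p q hpq
      apply Subtype.ext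
      apply Subtype.ext
      have := congrArg (fun z : {p : ℤ × ℤ | |p.1| ≤ N ∧ |p.2| ≤ N} => z.1) hpq
      exact this
    refine Finite.of_surjective
      (fun p : Option {p : S // |p.1.1| ≤ N ∧ |p.1.2| ≤ N} =>
        match p with
        | none => (Lat.induce S).connectedComponentMk ⟨_, hcorner⟩
        | some p => (Lat.induce S).connectedComponentMk p.1) ?_
    intro c
    induction c using SimpleGraph.ConnectedComponent.ind with
    | h x =>
      by_cases hx : |x.1.1| ≤ N ∧ |x.1.2| ≤ N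
      · exact ⟨some ⟨x, hx⟩, rfl⟩
      · exact ⟨none, (hout x.1 x.2 hx).symm⟩
  have hft : Fintype (Lat.induce S).ConnectedComponent := Fintype.ofFinite _
  -- the projection
  have hex : ∃ π : ℤ × ℤ → V ⊕ (Lat.induce S).ConnectedComponent,
      (∀ v, ∀ x ∈ fib v, π x = Sum.inl v) ∧
      (∀ x (hx : x ∈ S), π x = Sum.inr ((Lat.induce S).connectedComponentMk ⟨x, hx⟩)) := by
    refine ⟨fun x => if h : ∃ v, x ∈ fib v then Sum.inl h.choose
      else Sum.inr ((Lat.induce S).connectedComponentMk ⟨x, by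
        intro hx
        rw [Set.mem_iUnion] at hx
        exact h hx⟩), ?_, ?_⟩
    · intro v x hx
      have h : ∃ v, x ∈ fib v := ⟨v, hx⟩
      simp only [dif_pos h]
      congr 1
      by_contra hne
      exact (Set.disjoint_left.mp (h3 _ _ hne)) h.choose_spec hx
    · intro x hx
      have h : ¬ ∃ v, x ∈ fib v := by
        intro h
        exact hx (Set.mem_iUnion.mpr h)
      simp only [dif_neg h]
  obtain ⟨π, hπ1, hπ2⟩ := hex
  have hcase : ∀ x, (∃ v, x ∈ fib v) ∨ x ∈ S := by
    intro x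
    by_cases h : ∃ v, x ∈ fib v
    · exact Or.inl h
    · right
      intro hx
      exact h (Set.mem_iUnion.mp hx)
  have hpre1 : ∀ v, π ⁻¹' {Sum.inl v} = fib v := by
    intro v
    ext x
    constructor
    · intro hx
      rcases hcase x with ⟨u, hu⟩ | hxS
      · have e : π x = Sum.inl v := hx
        rw [hπ1 u x hu] at e
        have : u = v := Sum.inl_injective e
        rwa [this] at hu
      · have e : π x = Sum.inl v := hx
        rw [hπ2 x hxS] at e
        exact absurd e (by simp)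
    · intro hx
      exact hπ1 v x hx
  have hpre2 : ∀ c, π ⁻¹' {Sum.inr c} = Subtype.val '' c.supp := by
    intro c
    ext x
    constructor
    · intro hx
      have e : π x = Sum.inr c := hx
      rcases hcase x with ⟨u, hu⟩ | hxS
      · rw [hπ1 u x hu] at e
        exact absurd e (by simp)
      · rw [hπ2 x hxS] at e
        exact ⟨⟨x, hxS⟩, Sum.inr_injective e, rfl⟩
    · rintro ⟨⟨y, hy⟩, hyc, rfl⟩
      show π y = Sum.inr c
      rw [hπ2 y hy]
      congr 1
  refine ⟨V ⊕ (Lat.induce S).ConnectedComponent, inferInstance, π,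
    Sum.inr ((Lat.induce S).connectedComponentMk ⟨_, hcorner⟩), Sum.inl, ⟨?_, ?_⟩,
    Sum.inl_injective, ?_, ?_⟩
  · rintro (v | c)
    · rw [hpre1]
      exact h2 v
    · rw [hpre2]
      have hc : ((Lat.induce S).induce c.supp).Connected := c.connected_toSimpleGraph
      refine (SimpleGraph.Iso.connected_iff
        (G := (Lat.induce S).induce c.supp) (H := Lat.induce (Subtype.val '' c.supp)) ?_).mp hc
      refine ⟨Equiv.Set.image Subtype.val c.supp Subtype.val_injective, ?_⟩
      intro x y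
      simp
  · rintro (v | c) hne
    · rw [hpre1]
      exact h1 v
    · rw [hpre2]
      refine (box_finite N).subset ?_
      rintro _ ⟨⟨x, hx⟩, hxc, rfl⟩
      by_contra hh
      apply hne
      rw [← hout x hx hh]
      congr 1
      exact (show (Lat.induce S).connectedComponentMk ⟨x, hx⟩ = c from hxc).symm
  · intro u v
    constructor
    · rintro ⟨hne, a, b, hab, ha, hb⟩
      have hne' : u ≠ v := fun e => hne (congrArg Sum.inl e)
      rw [← h4 u v hne']
      refine ⟨a, ?_, b, ?_, hab⟩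
      · rw [← hpre1 u]; exact ha
      · rw [← hpre1 v]; exact hb
    · intro huv
      have hne' : u ≠ v := huv.ne
      obtain ⟨a, ha, b, hb, hab⟩ := (h4 u v hne').mpr huv
      exact ⟨fun e => hne' (Sum.inl_injective e), a, b, hab, hπ1 u a ha, hπ1 v b hb⟩
  · rintro p q hp hq ⟨hne, a, b, hab, ha, hb⟩
    rcases p with u | c
    · exact hp ⟨u, rfl⟩
    rcases q with u | d
    · exact hq ⟨u, rfl⟩
    have ha' : a ∈ π ⁻¹' {Sum.inr c} := ha
    have hb' : b ∈ π ⁻¹' {Sum.inr d} := hb
    rw [hpre2] at ha' hb'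
    obtain ⟨x, hx, hxa⟩ := ha'
    obtain ⟨y, hy, hyb⟩ := hb'
    apply hne
    congr 1
    have hx' : (Lat.induce S).connectedComponentMk x = c := hx
    have hy' : (Lat.induce S).connectedComponentMk y = d := hy
    rw [← hx', ← hy']
    apply SimpleGraph.ConnectedComponent.sound
    apply SimpleGraph.Adj.reachable
    show Lat.Adj x.1 y.1
    rw [hxa, hyb]
    exact hab

end PS
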