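import Pool.Agent.Lib_helper70.PS.Defs

set_option autoImplicit false

/-!
MP_8191b7_co, module M7: the certificate of a graph from those of its components, and
restriction of drawings and tree decompositions to induced subgraphs.
-/

namespace PS

theorem cert_of_components {V : Type} [Fintype V] (G : SimpleGraph V) (b m d : ℕ)
    (h : ∀ c : G.ConnectedComponent, Cert (G.induce c.supp) b m d) : Cert G b m d := by
  classical
  choose ι fι lab μ A par rk h1 h2 h3 h4 h5 h6 using h
  have hmem : ∀ v : V, v ∈ (G.connectedComponentMk v).supp := fun v => by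
    simp [SimpleGraph.ConnectedComponent.mem_supp_iff]
  have hfc : Fintype G.ConnectedComponent := Fintype.ofFinite _
  have hfi : ∀ c, Fintype (ι c) := fι
  obtain ⟨LAB, hLAB⟩ : ∃ LAB : V → Σ c, ι c, ∀ (c : G.ConnectedComponent) (v : V)
      (hv : v ∈ c.supp), LAB v = ⟨c, lab c ⟨v, hv⟩⟩ := by
    refine ⟨fun v => ⟨G.connectedComponentMk v, lab _ ⟨v, hmem v⟩⟩, ?_⟩
    intro c v hv
    have hc : G.connectedComponentMk v = c := hv
    subst hc
    rfl
  obtain ⟨MU, hMU⟩ : ∃ MU : V → ℕ, ∀ (c : G.ConnectedComponent) (v : V)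
      (hv : v ∈ c.supp), MU v = μ c ⟨v, hv⟩ := by
    refine ⟨fun v => μ _ ⟨v, hmem v⟩, ?_⟩
    intro c v hv
    have hc : G.connectedComponentMk v = c := hv
    subst hc
    rfl
  have hsame : ∀ u v, G.Adj u v → v ∈ (G.connectedComponentMk u).supp := by
    intro u v huv
    rw [SimpleGraph.ConnectedComponent.mem_supp_iff]
    exact SimpleGraph.ConnectedComponent.sound huv.symm.reachable
  refine ⟨Σ c, ι c, inferInstance, LAB, MU,
    fun i => (A i.1 i.2).map (Function.Embedding.sigmaMk i.1),
    fun i => ⟨i.1, par i.1 i.2⟩, fun i => rk i.1 i.2, ?_, ?_, ?_, ?_, ?_, ?_⟩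
  · intro v
    rw [hMU _ v (hmem v)]
    exact h1 _ _
  · intro u v huv
    rw [hMU _ u (hmem u), hMU _ v (hsame u v huv)]
    exact h2 _ _ _ (by simpa using huv)
  · rintro ⟨c, i⟩ n
    have hset : {v | LAB v = ⟨c, i⟩ ∧ MU v = n} =
        Subtype.val '' {v : c.supp | lab c v = i ∧ μ c v = n} := by
      ext v
      constructor
      · rintro ⟨ha, hb⟩
        have ha' := ha
        rw [hLAB _ v (hmem v)] at ha
        have hc : G.connectedComponentMk v = c := (Sigma.mk.inj_iff.mp ha).1
        have hv : v ∈ c.supp := hc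
        rw [hLAB c v hv] at ha'
        rw [hMU c v hv] at hb
        refine ⟨⟨v, hv⟩, ⟨?_, hb⟩, rfl⟩
        simpa using ha'
      · rintro ⟨⟨v, hv⟩, ⟨ha, hb⟩, rfl⟩
        refine ⟨?_, ?_⟩
        · rw [hLAB c v hv, ha]
        · rw [hMU c v hv, hb]
    rw [hset, Set.ncard_image_of_injective _ Subtype.val_injective]
    exact h3 c i n
  · rintro ⟨c, i⟩
    simpa using h4 c i
  · intro u v huv
    have hv := hsame u v huv
    have key := h5 (G.connectedComponentMk u) ⟨u, hmem u⟩ ⟨v, hv⟩ (by simpa using huv)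
    rw [hLAB _ u (hmem u), hLAB _ v hv]
    rcases key with key | key | key
    · left; rw [key]
    · right; left
      exact Finset.mem_map_of_mem (Function.Embedding.sigmaMk (G.connectedComponentMk u)) key
    · right; right
      exact Finset.mem_map_of_mem (Function.Embedding.sigmaMk (G.connectedComponentMk u)) key
  · rintro ⟨c, i⟩
    rcases h6 c i with h | ⟨h, h'⟩
    · left
      show (A c i).map _ = ∅
      rw [h, Finset.map_empty]
    · right
      refine ⟨h, ?_⟩
      intro x hx
      rw [Finset.mem_map] at hx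
      obtain ⟨y, hy, rfl⟩ := hx
      rcases h' y hy with h | h
      · left
        rw [h]
        rfl
      · right
        exact Finset.mem_map_of_mem (Function.Embedding.sigmaMk c) h

theorem drawable_induce {V : Type} (G : SimpleGraph V) (s : Set V) (h : Drawable G) :
    Drawable (G.induce s) := by
  obtain ⟨f, γ, hf, h1, h2, h3⟩ := h
  refine ⟨fun u => f u.1, fun u v huv => γ u.1 v.1 huv, ?_, ?_, ?_, ?_⟩
  · intro u v huv
    exact Subtype.ext (hf huv)
  · intro u v huv
    exact h1 _ _ _
  · intro u v huv t w hw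
    rcases h2 _ _ _ t _ hw with h | h
    · left; exact Subtype.ext h
    · right; exact Subtype.ext h
  · intro u v x y huv hxy t t' htt' hne
    have hne' : s(u.1, v.1) ≠ s(x.1, y.1) := by
      intro hh
      apply hne
      rw [Sym2.eq_iff] at hh ⊢
      rcases hh with ⟨ha, hb⟩ | ⟨ha, hb⟩
      · left; exact ⟨Subtype.ext ha, Subtype.ext hb⟩
      · right; exact ⟨Subtype.ext ha, Subtype.ext hb⟩
    obtain ⟨w, hw1, hw2, hw3⟩ := h3 _ _ _ _ _ _ _ _ htt' hne'
    rcases hw1 with rfl | rfl
    · refine ⟨u, Or.inl rfl, ?_, hw3⟩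
      rcases hw2 with h | h
      · left; exact Subtype.ext h
      · right; exact Subtype.ext h
    · refine ⟨v, Or.inr rfl, ?_, hw3⟩
      rcases hw2 with h | h
      · left; exact Subtype.ext h
      · right; exact Subtype.ext h

theorem hasTW_induce {V : Type} (G : SimpleGraph V) (s : Set V) (k : ℕ) (h : HasTW G k) :
    HasTW (G.induce s) k := by
  classical
  obtain ⟨m, T, B, hT, h1, h2, h3⟩ := h
  refine ⟨m, T, fun t => Finset.subtype (fun v => v ∈ s) (B t), hT, ?_, ?_, ?_⟩
  · intro u v huv
    obtain ⟨t, hu, hv⟩ := h1 u.1 v.1 huv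
    exact ⟨t, by simpa using hu, by simpa using hv⟩
  · intro v
    have : {t | v ∈ Finset.subtype (fun v => v ∈ s) (B t)} = {t | v.1 ∈ B t} := by
      ext t; simp
    rw [this]
    exact h2 v.1
  · intro t
    refine le_trans ?_ (h3 t)
    rw [Finset.card_subtype]
    exact Finset.card_filter_le _ _

end PS
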