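import Pool.Agent.Lib_helper70.PS.Defs
import Pool.Agent.Lib_helper22.PS.M1b
import Pool.Agent.Lib_helper22.PS.M7
import Pool.Agent.Lib_helper96.PS.M1a

set_option autoImplicit false

/-!
MP_8191b7_co: assembly of S09787 from the modules; the two remaining modules (certificate of a
planar model, graph of a certificate) are arguments.
-/

namespace PS

/-- statement of the module M4 + M5 -/
def CertOfModel (m : ℕ) : Prop :=
  ∀ {W : Type} [Fintype W] {π : ℤ × ℤ → W} {o : W}, Model π o →
    ∀ (F : Set W), (∀ p ∈ F, ∀ q ∈ F, ¬ (Quo π).Adj p q) →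
    ((Quo π).induce Fᶜ).Connected → ∀ k : ℕ, HasTW ((Quo π).induce Fᶜ) k →
    Cert (Quo π) (k + 2) m 4

/-- statement of the module M6 -/
def FinalOfCert : Prop :=
  ∀ {V : Type} [Fintype V] (G : SimpleGraph V) (b m d : ℕ), 0 < b → 0 < m → Cert G b m d →
    ∃ (a : ℕ) (H : SimpleGraph (Fin a)), HasTW H ((d + 1) * m - 1) ∧
      (∃ φ : G →g SP H b, Function.Injective φ) ∧ HasTW (SP H b) ((d + 1) * m * b - 1)

/-- tree decompositions along an isomorphism -/
theorem HasTW.iso {V W : Type} {G : SimpleGraph V} {H : SimpleGraph W} {k : ℕ} (h : HasTW G k)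
    (e : G ≃g H) : HasTW H k := by
  classical
  obtain ⟨m, T, B, hT, h1, h2, h3⟩ := h
  have hmem : ∀ (w : W) (t : Fin m), w ∈ (B t).map e.toEquiv.toEmbedding ↔ e.symm w ∈ B t := by
    intro w t
    constructor
    · intro hw
      obtain ⟨v, hv, hvw⟩ := Finset.mem_map.1 hw
      have : w = e v := hvw.symm
      rw [this, RelIso.symm_apply_apply]
      exact hv
    · intro hw
      refine Finset.mem_map.2 ⟨e.symm w, hw, ?_⟩
      exact e.apply_symm_apply w
  refine ⟨m, T, fun t => (B t).map e.toEquiv.toEmbedding, hT, ?_, ?_, ?_⟩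
  · intro u v huv
    obtain ⟨t, hu, hv⟩ := h1 (e.symm u) (e.symm v) (e.symm.map_rel_iff.2 huv)
    exact ⟨t, (hmem u t).2 hu, (hmem v t).2 hv⟩
  · intro v
    have : {t | v ∈ (B t).map e.toEquiv.toEmbedding} = {t | e.symm v ∈ B t} := by
      ext t
      exact hmem v t
    rw [this]
    exact h2 _
  · intro t
    rw [Finset.card_map]
    exact h3 t

/-- restriction of a certificate along an injective homomorphism -/
theorem Cert.comap {V W : Type} [Finite W] {G : SimpleGraph V} {H : SimpleGraph W} {b m d : ℕ}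
    (h : Cert H b m d) (j : V → W) (hj : Function.Injective j)
    (hadj : ∀ u v, G.Adj u v → H.Adj (j u) (j v)) : Cert G b m d := by
  obtain ⟨ι, fι, lab, μ, A, par, rk, h1, h2, h3, h4, h5, h6⟩ := h
  refine ⟨ι, fι, fun v => lab (j v), fun v => μ (j v), A, par, rk, fun v => h1 _,
    fun u v huv => h2 _ _ (hadj u v huv), ?_, h4, fun u v huv => h5 _ _ (hadj u v huv), h6⟩
  intro i n
  refine le_trans ?_ (h3 i n)
  refine Set.ncard_le_ncard_of_injOn j ?_ (hj.injOn) (Set.toFinite _)
  intro v hv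
  exact hv

theorem hasTW_trivial {V : Type} [Fintype V] (G : SimpleGraph V) : ∃ k, HasTW G k := by
  classical
  refine ⟨Fintype.card V, 1, ⊥, fun _ => Finset.univ, ?_, ?_, ?_, ?_⟩
  · refine ⟨?_, ?_⟩
    · exact SimpleGraph.Connected.of_subsingleton
    · exact SimpleGraph.IsAcyclic.of_subsingleton
  · intro u v _
    exact ⟨0, Finset.mem_univ _, Finset.mem_univ _⟩
  · intro v
    have hne : Nonempty {t : Fin 1 | v ∈ (Finset.univ : Finset V)} := ⟨⟨0, Finset.mem_univ _⟩⟩
    exact SimpleGraph.Connected.of_subsingleton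
  · intro t
    rw [Finset.card_univ]
    omega

/-- certificate of a connected drawable graph -/
theorem cert_of_connected {m : ℕ} (hCM : CertOfModel m) {V : Type} [Fintype V]
    (G : SimpleGraph V) (hd : Drawable G) (hc : G.Connected) (k : ℕ) (hk : HasTW G k) :
    Cert G (k + 2) m 4 := by
  classical
  obtain ⟨fib, f1, f2, f3, f4⟩ := fibres_of_drawable G hd
  have hne : Nonempty V := hc.nonempty
  obtain ⟨W, fW, π, o, j, hM, hj, hadj, hF⟩ := model_of_fibres G fib f1 f2 f3 f4
  have hset : ((Set.range j)ᶜ)ᶜ = Set.range j := compl_compl _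
  have e : G ≃g (Quo π).induce (((Set.range j)ᶜ)ᶜ) := by
    refine ⟨(Equiv.ofInjective j hj).trans (Equiv.setCongr hset.symm), ?_⟩
    intro u v
    exact hadj u v
  have hC := hCM hM (Set.range j)ᶜ (fun p hp q hq => hF p q hp hq)
    ((SimpleGraph.Iso.connected_iff e).1 hc) k (hk.iso e)
  exact hC.comap j hj (fun u v huv => (hadj u v).2 huv)

/-- certificate of a drawable graph -/
theorem cert_of_drawable {m : ℕ} (hCM : CertOfModel m) {V : Type} [Fintype V]
    (G : SimpleGraph V) (hd : Drawable G) (k : ℕ) (hk : HasTW G k) :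
    Cert G (k + 2) m 4 := by
  classical
  refine cert_of_components G _ _ _ (fun c => ?_)
  exact cert_of_connected hCM (G.induce c.supp) (drawable_induce G _ hd)
    c.connected_toSimpleGraph k (hasTW_induce G _ k hk)

/-- the frozen statement S09787, in terms of the definitions above -/
theorem final {m : ℕ} (hm : 0 < m) (hCM : CertOfModel m) (hFC : FinalOfCert) :
    ∃ c k₀ : ℕ, ∀ (V : Type) [Fintype V] (G : SimpleGraph V), Drawable G →
      ∃ (a b : ℕ) (H : SimpleGraph (Fin a)), HasTW H k₀ ∧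
        (∃ φ : G →g SP H b, Function.Injective φ) ∧
        ∀ k : ℕ, HasTW G k →
          ∃ (n : ℕ) (T : SimpleGraph (Fin n)) (B : Fin n → Finset (Fin a × Fin b)),
            T.IsTree ∧ (∀ u v, (SP H b).Adj u v → ∃ t, u ∈ B t ∧ v ∈ B t) ∧
            (∀ v, (T.induce {t | v ∈ B t}).Connected) ∧
            ∀ t, (B t).card ≤ c * (k + 1) + 1 := by
  classical
  refine ⟨10 * m, 5 * m - 1, ?_⟩
  intro V _ G hd
  have hex := hasTW_trivial G
  obtain ⟨a, H, hH, hφ, n, T, B, hT, hB1, hB2, hB3⟩ :=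
    hFC G (Nat.find hex + 2) m 4 (by omega) hm
      (cert_of_drawable hCM G hd (Nat.find hex) (Nat.find_spec hex))
  refine ⟨a, Nat.find hex + 2, H, hH, hφ, ?_⟩
  intro k hk
  refine ⟨n, T, B, hT, hB1, hB2, ?_⟩
  intro t
  have hle : Nat.find hex ≤ k := Nat.find_min' hex hk
  refine (hB3 t).trans ?_
  have h1 : 0 < (4 + 1) * m * (Nat.find hex + 2) := by positivity
  have h2 : (4 + 1) * m * (Nat.find hex + 2) - 1 + 1 = (4 + 1) * m * (Nat.find hex + 2) := by
    omega
  rw [h2]
  have h3 : (4 + 1) * m * (Nat.find hex + 2) ≤ (4 + 1) * m * (k + 2) :=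
    Nat.mul_le_mul_left _ (by omega)
  have h4 : (4 + 1) * m * (k + 2) ≤ (4 + 1) * m * (2 * (k + 1)) :=
    Nat.mul_le_mul_left _ (by omega)
  have h5 : (4 + 1) * m * (2 * (k + 1)) = 10 * m * (k + 1) := by ring
  omega

end PS
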